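import Pool.Agent.MP_0f3202_lc.Lb.All

/-! A communication versus storage tradeoff for protocols that broadcast their inputs masked. -/

namespace Pool.Agent.Results.MP_0f3202_lc.MaskedLower

open Pool.Agent.MP0f3202 Pool.Agent.MP0f3202.Lb

theorem result (N k s0 : ℕ) (hN : 2 ≤ N) (hk : 5 ≤ k) :
    ∃ (n s d : ℕ) (C : Circ n 1 s d) (owner : Fin n → Fin N),
      s0 ≤ s ∧ s ≤ 2 * s0 + 64 * (k + 1) ∧
      ∀ (S : ℕ) (P : RProt N n 1 S), P.Masked owner → P.Secure owner C.fn (1 / 2 ^ (k + 3)) →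
        (P.comm : ℝ) ≤ n + s / (16 * (k + 1) * 2 ^ k) →
        2 ^ k * (n + s) ≤ 1280 * (k + 1) * N * S :=
  main_Fin (sLow (sCore sTr (sMom sKh)) sGood sRect sPriv sErr) sCirc N k s0 hN hk

end Pool.Agent.Results.MP_0f3202_lc.MaskedLower
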