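import Pool.Agent.MP_0f3202_lc.Main

/-! A perfectly secure protocol for layered circuits whose storage exponent is about `2 ^ e`, where
every window of `k` layers has at most `e` AND-type gates per path, or at most `2 e + 1 - k`
XOR-type gates per path. -/

namespace Pool.Agent.Results.MP_0f3202_lc.SqrtTable

open Pool.Agent.MP0f3202

theorem result (N n m s d k t e : ℕ) (hN : 0 < N) (hk : 0 < k) (ht : 0 < t) (C : Circ n m s d)
    (owner : Fin n → Fin N) (he : ∀ v, C.ac k v ≤ e ∨ k + C.xc k v ≤ 2 * e + 1) :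
    ∃ G : ℕ, k * t * G ≤ s + t * d + 2 * k * (m + t) ∧
      ∃ P : Prot N n m (n + G * 2 ^ (2 * ((k + t + (Nat.log 2 N + 3)) * 2 ^ (2 * t + 7 + e)))),
        P.comm = n + N * (t + (Nat.log 2 N + 3)) * G ∧ P.Secure owner C.fn :=
  main hN hk ht C owner he

end Pool.Agent.Results.MP_0f3202_lc.SqrtTable
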